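import Pool.Agent.H682.RV.Red

set_option autoImplicit false

/-!
# The response time variability problem is NP-hard in the strong sense

`RTVUnary` (`Pool/Agent/H682/RV/Defs.lean`): given the demands, written in unary, and a rational
bound `B`, is there a cyclic sequence with total response time variability at most `B`?
`NPHardP` is NP-hardness under polynomial-time many-one reductions computed by Turing machines.

Proof. The library reduces 3SAT to the existence of exact offsets: given periods `b i`, bounded by
a polynomial, choose `c i` such that the residue classes `c i mod b i` are pairwise disjoint. Take
a sequence of polynomial length `D` (which need not be a multiple of any `b i`), a model of demand
`⌊D / b i⌋` for each period, models of demand `1` as fillers, and the bound `B = ∑ M ^ 2`, where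
`M` bounds the periods. If there are exact offsets, execute the models periodically, with one
exceptional gap `b i + (D mod b i)` at the end of the sequence, for each of them; this costs at
most `(D mod b i) ^ 2`. Conversely, if the total variability is at most `B`, then all but `4 B` gaps
of the models which are not fillers are equal to their `b i`, and no gap is longer than `M + B`; as
`D` is larger than `(4 B + 1) (M + B + M ^ 2)`, there is a block of length `M + B + M ^ 2` in which
all these models are executed exactly periodically, and as two of these classes would meet in such
a block if they were not disjoint, this gives exact offsets.
-/

namespace Pool.Agent.Results.MP_beca7c_lc.StronglyNPHard

open Pool.Agent.NPC Pool.Agent.H682.RV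

/-- **The response time variability problem is NP-hard in the strong sense**: it is NP-hard when
the demands are written in unary. -/
theorem result : NPHardP RTVUnary := hardI_rtv.toNPHardP

end Pool.Agent.Results.MP_beca7c_lc.StronglyNPHard
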